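import Pool.Agent.X13.AG.Golomb

/-!
# MP_c02c06_co, Q1: `M(r) = N_r(r-1)` for every `r ≥ 5`

`AlmostGolomb r a`: `a 1, a 2, ...` is the lexicographically least nondecreasing sequence of
positive integers with `a (a n + ... + a (n-r+1)) = n` for all `n ≥ 1` (terms of index `≤ 0` are
`0`).  `mult a n` is the number of `i ≥ 1` with `a i = n`.
-/

namespace Pool.Agent.Results.MP_c02c06_co.MaximalMultiplicity

open Pool.Agent.X13.AG

/-- For every `r ≥ 2` the almost Golomb sequence of order `r` exists and is unique; its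
multiplicities satisfy `N_r(m) = a(m+1) - a(m+1-r)` for `m ≥ 3`; and for every `r ≥ 5` the largest
multiplicity is that of `r - 1`. -/
theorem result :
    (∀ r, 2 ≤ r → ∃! a : ℕ → ℕ, AlmostGolomb r a) ∧
    (∀ r, 2 ≤ r → ∀ a : ℕ → ℕ, AlmostGolomb r a →
      ∀ m, 3 ≤ m → mult a m + a (m + 1 - r) = a (m + 1)) ∧
    (∀ r, 5 ≤ r → ∀ a : ℕ → ℕ, AlmostGolomb r a →
      IsGreatest {t : ℕ | ∃ n, 1 ≤ n ∧ t = mult a n} (mult a (r - 1))) :=
  ⟨existsUnique_almostGolomb,
    fun _ hr _ ha m hm => (ha.greedy hr).mult_eq hr m hm,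
    fun _ hr _ ha => (ha.greedy (by omega)).isGreatest hr⟩

end Pool.Agent.Results.MP_c02c06_co.MaximalMultiplicity
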